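import Mathlib
import Pool.Agent.U481.EV.Stm

/-!
# Project EV, package BS: pointwise Biot-Savart bound for smooth fields
-/

set_option autoImplicit false

open MeasureTheory Set Filter Topology
open scoped ENNReal NNReal ContDiff InnerProductSpace

namespace Pool.Agent.U504.EV

open H772R2.NS Pool.Agent.U481.EV

theorem ibp {f g : E3 → ℝ} (hf : ContDiff ℝ 1 f) (hc : HasCompactSupport f)
    (hg : ContDiff ℝ 1 g) (v : E3) :
    ∫ x, f x * fderiv ℝ g x v = - ∫ x, fderiv ℝ f x v * g x := by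
  have hf' : Continuous fun x => fderiv ℝ f x v :=
    (hf.continuous_fderiv one_ne_zero).clm_apply continuous_const
  have hg' : Continuous fun x => fderiv ℝ g x v :=
    (hg.continuous_fderiv one_ne_zero).clm_apply continuous_const
  have hcf' : HasCompactSupport fun x => fderiv ℝ f x v := hc.fderiv_apply ℝ v
  apply integral_mul_fderiv_eq_neg_fderiv_mul_of_integrable
  · exact (hf'.mul hg.continuous).integrable_of_hasCompactSupport hcf'.mul_right
  · exact (hf.continuous.mul hg').integrable_of_hasCompactSupport hc.mul_right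
  · exact (hf.continuous.mul hg.continuous).integrable_of_hasCompactSupport hc.mul_right
  · exact fun x _ => hf.differentiable one_ne_zero x
  · exact fun x _ => hg.differentiable one_ne_zero x

/-- the field `V` -/
noncomputable def V (ε : ℝ) (a : E3) (j : Fin 3) (y : E3) : ℝ :=
  (y j - a j) * (‖y - a‖ ^ 2 + ε ^ 2) ^ (-3 / 2 : ℝ)

theorem base_pos {ε : ℝ} (hε : 0 < ε) (a y : E3) : 0 < ‖y - a‖ ^ 2 + ε ^ 2 := by positivity

theorem contDiff_V {ε : ℝ} (hε : 0 < ε) (a : E3) (j : Fin 3) : ContDiff ℝ 1 (V ε a j) := by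
  unfold V
  apply ContDiff.mul
  · exact ((EuclideanSpace.proj j : E3 →L[ℝ] ℝ).contDiff).sub contDiff_const
  · apply ContDiff.rpow_const_of_ne
    · exact ((contDiff_norm_sq ℝ).comp (contDiff_id.sub contDiff_const)).add contDiff_const
    · exact fun y => (base_pos hε a y).ne'

theorem fderiv_V {ε : ℝ} (hε : 0 < ε) (a : E3) (i j : Fin 3) (y : E3) :
    fderiv ℝ (V ε a j) y (EuclideanSpace.single i 1) =
      (if i = j then (‖y - a‖ ^ 2 + ε ^ 2) ^ (-3 / 2 : ℝ) else 0) -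
        3 * (y i - a i) * (y j - a j) * (‖y - a‖ ^ 2 + ε ^ 2) ^ (-5 / 2 : ℝ) := by
  have h1 : HasFDerivAt (fun y : E3 => ‖y - a‖ ^ 2 + ε ^ 2) (2 • innerSL ℝ (y - a)) y := by
    have := ((hasStrictFDerivAt_norm_sq (y - a)).hasFDerivAt.comp y
      ((hasFDerivAt_id y).sub_const a)).add_const (ε ^ 2)
    simpa using this
  have h2 := h1.rpow_const (p := (-3 / 2 : ℝ)) (Or.inl (base_pos hε a y).ne')
  have h3 : HasFDerivAt (fun y : E3 => y j - a j) (EuclideanSpace.proj j : E3 →L[ℝ] ℝ) y :=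
    ((EuclideanSpace.proj j : E3 →L[ℝ] ℝ).hasFDerivAt).sub_const _
  have h4 := h3.mul h2
  have h5 : fderiv ℝ (V ε a j) y = _ := h4.fderiv
  rw [h5]
  have e1 : (-3 / 2 - 1 : ℝ) = -5 / 2 := by norm_num
  have e2 : (innerSL ℝ (y - a)) (EuclideanSpace.single i (1 : ℝ)) = y i - a i := by
    rw [innerSL_apply_apply, EuclideanSpace.inner_single_right]
    simp
  have e3 : (EuclideanSpace.proj j : E3 →L[ℝ] ℝ) (EuclideanSpace.single i (1 : ℝ)) =
      if i = j then 1 else 0 := by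
    change (EuclideanSpace.single i (1 : ℝ) : E3) j = _
    rw [EuclideanSpace.single_apply]
    simp [eq_comm]
  simp only [add_apply, smul_apply, smul_eq_mul, e1, e2,
    e3, nsmul_eq_mul]
  split_ifs <;> push_cast <;> ring

theorem comp_fderiv {φ : E3 → E3} (hφ : ContDiff ℝ ∞ φ) (i : Fin 3) (y v : E3) :
    fderiv ℝ (fun y => φ y i) y v = (fderiv ℝ φ y v) i := by
  have h1 : DifferentiableAt ℝ φ y := (hφ.differentiable (by simp)) y
  have h2 := ((EuclideanSpace.proj i : E3 →L[ℝ] ℝ).hasFDerivAt (x := φ y)).comp y h1.hasFDerivAt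
  have h3 : fderiv ℝ (fun y => φ y i) y = _ := h2.fderiv
  rw [h3]
  rfl

theorem comp_contDiff {φ : E3 → E3} (hφ : ContDiff ℝ ∞ φ) (i : Fin 3) :
    ContDiff ℝ 1 (fun y => φ y i) :=
  ((EuclideanSpace.proj i : E3 →L[ℝ] ℝ).contDiff.comp (hφ.of_le (by exact_mod_cast le_top)))

theorem comp_compact {φ : E3 → E3} (hc : HasCompactSupport φ) (i : Fin 3) :
    HasCompactSupport (fun y => φ y i) :=
  hc.comp_left (g := fun x : E3 => x i) rfl

theorem core {φ : E3 → E3} (hφ : ContDiff ℝ ∞ φ) (hc : HasCompactSupport φ)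
    (hd : ∀ x, ∑ i, jac φ x (i, i) = 0) (a : E3) {ε : ℝ} (hε : 0 < ε) (i : Fin 3) :
    ∫ y, φ y i * (3 * ε ^ 2 * (‖y - a‖ ^ 2 + ε ^ 2) ^ (-5 / 2 : ℝ)) =
      - ∑ j, ∫ y, (jac φ y (i, j) - jac φ y (j, i)) * V ε a j y := by
  have hj : ∀ (k l : Fin 3) (y : E3), jac φ y (k, l) =
      fderiv ℝ (fun y => φ y k) y (EuclideanSpace.single l 1) := by
    intro k l y
    rw [comp_fderiv hφ]
    rfl
  have hcont : ∀ k l : Fin 3, Continuous fun y => jac φ y (k, l) := by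
    intro k l
    simp_rw [hj]
    exact ((comp_contDiff hφ k).continuous_fderiv one_ne_zero).clm_apply continuous_const
  have hcomp : ∀ k l : Fin 3, HasCompactSupport fun y => jac φ y (k, l) := by
    intro k l
    simp_rw [hj]
    exact (comp_compact hc k).fderiv_apply ℝ _
  have hint : ∀ k l m : Fin 3, Integrable fun y => jac φ y (k, l) * V ε a m y := fun k l m =>
    ((hcont k l).mul (contDiff_V hε a m).continuous).integrable_of_hasCompactSupport
      (hcomp k l).mul_right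
  have hI : ∀ k l m : Fin 3, ∫ y, jac φ y (k, l) * V ε a m y =
      - ∫ y, φ y k * fderiv ℝ (V ε a m) y (EuclideanSpace.single l 1) := by
    intro k l m
    have := ibp (comp_contDiff hφ k) (comp_compact hc k) (contDiff_V hε a m)
      (EuclideanSpace.single l 1)
    rw [this, neg_neg]
    simp_rw [hj]
  have hsym : ∀ (k l : Fin 3) (y : E3), fderiv ℝ (V ε a k) y (EuclideanSpace.single l 1) =
      fderiv ℝ (V ε a l) y (EuclideanSpace.single k 1) := by
    intro k l y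
    rw [fderiv_V hε, fderiv_V hε]
    by_cases h : l = k
    · subst h; rfl
    · rw [if_neg h, if_neg (Ne.symm h)]; ring
  have hdivV : ∀ y : E3, ∑ j, fderiv ℝ (V ε a j) y (EuclideanSpace.single j 1) =
      3 * ε ^ 2 * (‖y - a‖ ^ 2 + ε ^ 2) ^ (-5 / 2 : ℝ) := by
    intro y
    simp_rw [fderiv_V hε]
    have h0 := base_pos hε a y
    have h1 : (‖y - a‖ ^ 2 + ε ^ 2) ^ (-3 / 2 : ℝ) =
        (‖y - a‖ ^ 2 + ε ^ 2) * (‖y - a‖ ^ 2 + ε ^ 2) ^ (-5 / 2 : ℝ) := by
      have := Real.rpow_add h0 1 (-5 / 2)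
      rw [Real.rpow_one] at this
      rw [← this]
      norm_num
    have h2 : ‖y - a‖ ^ 2 = (y 0 - a 0) ^ 2 + (y 1 - a 1) ^ 2 + (y 2 - a 2) ^ 2 := by
      rw [EuclideanSpace.norm_sq_eq, Fin.sum_univ_three]
      simp
    rw [Fin.sum_univ_three]
    simp only [if_true]
    rw [h1]
    have h3 : ∀ G : ℝ, (‖y - a‖ ^ 2 + ε ^ 2) * G - 3 * (y 0 - a 0) * (y 0 - a 0) * G +
        ((‖y - a‖ ^ 2 + ε ^ 2) * G - 3 * (y 1 - a 1) * (y 1 - a 1) * G) +
        ((‖y - a‖ ^ 2 + ε ^ 2) * G - 3 * (y 2 - a 2) * (y 2 - a 2) * G) = 3 * ε ^ 2 * G := by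
      intro G
      rw [h2]
      ring
    exact h3 _
  have hVc : ∀ k l : Fin 3, Continuous fun y => fderiv ℝ (V ε a k) y (EuclideanSpace.single l 1) :=
    fun k l => ((contDiff_V hε a k).continuous_fderiv one_ne_zero).clm_apply continuous_const
  have hint2 : ∀ k l m : Fin 3, Integrable fun y =>
      φ y k * fderiv ℝ (V ε a m) y (EuclideanSpace.single l 1) := fun k l m =>
    ((comp_contDiff hφ k).continuous.mul (hVc m l)).integrable_of_hasCompactSupport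
      (comp_compact hc k).mul_right
  have s1 : ∑ j, ∫ y, (jac φ y (i, j) - jac φ y (j, i)) * V ε a j y =
      ∑ j, (- (∫ y, φ y i * fderiv ℝ (V ε a j) y (EuclideanSpace.single j 1)) -
        ∫ y, jac φ y (j, j) * V ε a i y) := by
    refine Finset.sum_congr rfl fun j _ => ?_
    have : (fun y => (jac φ y (i, j) - jac φ y (j, i)) * V ε a j y) =
        fun y => jac φ y (i, j) * V ε a j y - jac φ y (j, i) * V ε a j y := by
      funext y; ring
    rw [this, integral_sub (hint i j j) (hint j i j), hI i j j, hI j i j, hI j j i]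
    simp_rw [hsym j i]
  rw [s1, Finset.sum_sub_distrib, Finset.sum_neg_distrib,
    ← integral_finsetSum _ (fun j _ => hint2 i j j), ← integral_finsetSum _ (fun j _ => hint j j i)]
  have s2 : ∀ y, ∑ j, jac φ y (j, j) * V ε a i y = 0 := by
    intro y
    rw [← Finset.sum_mul, hd, zero_mul]
  simp_rw [s2, ← Finset.mul_sum, hdivV]
  simp

/-- the limit kernel -/
noncomputable def Ker (z : E3) : ℝ := 3 * (1 + ‖z‖ ^ 2) ^ (-5 / 2 : ℝ)

theorem integrable_Ker : Integrable Ker := by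
  have h := integrable_rpow_neg_one_add_norm_sq (E := E3) (μ := volume) (r := 5)
    (by rw [finrank_euclideanSpace]; norm_num)
  exact h.const_mul 3

theorem Ker_pos (z : E3) : 0 < Ker z := by unfold Ker; positivity

theorem integral_Ker_pos : 0 < ∫ z, Ker z := by
  rw [integral_pos_iff_support_of_nonneg (fun z => (Ker_pos z).le) integrable_Ker]
  have h : Function.support Ker = univ := by
    ext z
    simp [(Ker_pos z).ne']
  rw [h]
  exact Measure.measure_univ_pos.2 (NeZero.ne _)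

theorem scaling {φ : E3 → E3} (a : E3) {ε : ℝ} (hε : 0 < ε) (i : Fin 3) :
    ∫ y, φ y i * (3 * ε ^ 2 * (‖y - a‖ ^ 2 + ε ^ 2) ^ (-5 / 2 : ℝ)) =
      ∫ z, φ (a + ε • z) i * Ker z := by
  obtain ⟨F, hF⟩ : ∃ F : E3 → ℝ,
    F = fun y => φ y i * (3 * ε ^ 2 * (‖y - a‖ ^ 2 + ε ^ 2) ^ (-5 / 2 : ℝ)) := ⟨_, rfl⟩
  have h0 : ∫ y, φ y i * (3 * ε ^ 2 * (‖y - a‖ ^ 2 + ε ^ 2) ^ (-5 / 2 : ℝ)) = ∫ y, F y := by
    rw [hF]
  have h1 : ∫ y, F (a + y) = ∫ y, F y := integral_add_left_eq_self F a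
  have h2 : ∫ z, F (a + ε • z) = |(ε ^ 3)⁻¹| • ∫ y, F (a + y) := by
    have := Measure.integral_comp_smul (volume : Measure E3) (fun y => F (a + y)) ε
    rwa [finrank_euclideanSpace, Fintype.card_fin] at this
  have h3 : ∀ z, F (a + ε • z) = (ε ^ 3)⁻¹ * (φ (a + ε • z) i * Ker z) := by
    intro z
    rw [hF]
    have g1 : ‖a + ε • z - a‖ ^ 2 + ε ^ 2 = ε ^ 2 * (1 + ‖z‖ ^ 2) := by
      rw [add_sub_cancel_left, norm_smul, Real.norm_of_nonneg hε.le]
      ring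
    have g2 : (ε ^ 2 : ℝ) ^ (-5 / 2 : ℝ) = (ε ^ 5)⁻¹ := by
      rw [← Real.rpow_natCast ε 2, ← Real.rpow_mul hε.le]
      have : ((2 : ℕ) : ℝ) * (-5 / 2) = -((5 : ℕ) : ℝ) := by norm_num
      rw [this, Real.rpow_neg hε.le, Real.rpow_natCast]
    change φ (a + ε • z) i * (3 * ε ^ 2 * (‖a + ε • z - a‖ ^ 2 + ε ^ 2) ^ (-5 / 2 : ℝ)) = _
    rw [g1, Real.mul_rpow (by positivity) (by positivity), g2]
    unfold Ker
    field_simp
  have h4 : (0 : ℝ) < (ε ^ 3)⁻¹ := by positivity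
  simp_rw [h3] at h2
  rw [integral_const_mul, abs_of_pos h4, smul_eq_mul, h1] at h2
  rw [h0]
  exact (mul_left_cancel₀ h4.ne' h2).symm

theorem limit {φ : E3 → E3} (hφ : ContDiff ℝ ∞ φ) (hc : HasCompactSupport φ) (a : E3) (i : Fin 3) :
    Tendsto (fun n : ℕ => ∫ z, φ (a + (1 / ((n : ℝ) + 1)) • z) i * Ker z) atTop
      (𝓝 (φ a i * ∫ z, Ker z)) := by
  obtain ⟨M, hM⟩ := (comp_compact hc i).exists_bound_of_continuous (comp_contDiff hφ i).continuous
  rw [← integral_const_mul]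
  refine tendsto_integral_of_dominated_convergence (fun z => M * Ker z) ?_
    (integrable_Ker.const_mul M) ?_ ?_
  · intro n
    refine AEStronglyMeasurable.mul ?_ integrable_Ker.aestronglyMeasurable
    refine Continuous.aestronglyMeasurable ?_
    exact (comp_contDiff hφ i).continuous.comp (continuous_const.add (continuous_const_smul _))
  · intro n
    refine Eventually.of_forall fun z => ?_
    rw [norm_mul, Real.norm_of_nonneg (Ker_pos z).le]
    exact mul_le_mul_of_nonneg_right (hM _) (Ker_pos z).le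
  · refine Eventually.of_forall fun z => ?_
    refine Tendsto.mul_const _ ?_
    have h1 : Tendsto (fun n : ℕ => a + (1 / ((n : ℝ) + 1)) • z) atTop (𝓝 (a + (0 : ℝ) • z)) :=
      (tendsto_one_div_add_atTop_nhds_zero_nat.smul_const z).const_add a
    rw [zero_smul, add_zero] at h1
    exact ((comp_contDiff hφ i).continuous.tendsto a).comp h1

theorem V_bound {ε : ℝ} (hε : 0 < ε) (a : E3) (j : Fin 3) (y : E3) :
    ‖V ε a j y‖ₑ ≤ (‖a - y‖ₑ ^ 2)⁻¹ := by
  by_cases hy : y = a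
  · subst hy
    simp
  · have hr : 0 < ‖a - y‖ := norm_pos_iff.2 (sub_ne_zero.2 (Ne.symm hy))
    have h1 : ‖V ε a j y‖ ≤ (‖a - y‖ ^ 2)⁻¹ := by
      unfold V
      rw [norm_mul, norm_sub_rev y a]
      have g1 : ‖y j - a j‖ ≤ ‖a - y‖ := by
        rw [norm_sub_rev a y]
        exact PiLp.norm_apply_le (y - a) j
      have g2 : ‖(‖a - y‖ ^ 2 + ε ^ 2) ^ (-3 / 2 : ℝ)‖ ≤ (‖a - y‖ ^ 3)⁻¹ := by
        rw [Real.norm_of_nonneg (by positivity)]
        have g3 : (‖a - y‖ ^ 2 + ε ^ 2) ^ (-3 / 2 : ℝ) ≤ (‖a - y‖ ^ 2) ^ (-3 / 2 : ℝ) :=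
          Real.rpow_le_rpow_of_nonpos (by positivity) (by nlinarith) (by norm_num)
        refine g3.trans (le_of_eq ?_)
        rw [← Real.rpow_natCast ‖a - y‖ 2, ← Real.rpow_mul hr.le]
        have : ((2 : ℕ) : ℝ) * (-3 / 2) = -((3 : ℕ) : ℝ) := by norm_num
        rw [this, Real.rpow_neg hr.le, Real.rpow_natCast]
      calc _ ≤ ‖a - y‖ * (‖a - y‖ ^ 3)⁻¹ := mul_le_mul g1 g2 (norm_nonneg _) hr.le
        _ = (‖a - y‖ ^ 2)⁻¹ := by field_simp
    rw [← ofReal_norm, ← ofReal_norm, ← ENNReal.ofReal_pow hr.le,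
      ← ENNReal.ofReal_inv_of_pos (by positivity)]
    exact ENNReal.ofReal_le_ofReal h1

theorem rot_bound (z : M3) (i j : Fin 3) : ‖z (i, j) - z (j, i)‖ₑ ≤ ‖rot z‖ₑ := by
  rw [← ofReal_norm, ← ofReal_norm]
  apply ENNReal.ofReal_le_ofReal
  have h0 : ‖z (2, 1) - z (1, 2)‖ ≤ ‖rot z‖ := PiLp.norm_apply_le (rot z) 0
  have h1 : ‖z (0, 2) - z (2, 0)‖ ≤ ‖rot z‖ := PiLp.norm_apply_le (rot z) 1
  have h2 : ‖z (1, 0) - z (0, 1)‖ ≤ ‖rot z‖ := PiLp.norm_apply_le (rot z) 2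
  have h0' : ‖z (1, 2) - z (2, 1)‖ ≤ ‖rot z‖ := by rw [norm_sub_rev]; exact h0
  have h1' : ‖z (2, 0) - z (0, 2)‖ ≤ ‖rot z‖ := by rw [norm_sub_rev]; exact h1
  have h2' : ‖z (0, 1) - z (1, 0)‖ ≤ ‖rot z‖ := by rw [norm_sub_rev]; exact h2
  fin_cases i <;> fin_cases j <;> first | assumption | (simp; done)

theorem norm_le_sum (x : E3) : ‖x‖ₑ ≤ ‖x 0‖ₑ + ‖x 1‖ₑ + ‖x 2‖ₑ := by
  have h : ‖x‖ ≤ ‖x 0‖ + ‖x 1‖ + ‖x 2‖ := by
    rw [EuclideanSpace.norm_eq, Fin.sum_univ_three]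
    apply Real.sqrt_le_iff.2
    have h0 := norm_nonneg (x 0)
    have h1 := norm_nonneg (x 1)
    have h2 := norm_nonneg (x 2)
    exact ⟨by positivity, by nlinarith [mul_nonneg h0 h1, mul_nonneg h0 h2, mul_nonneg h1 h2]⟩
  rw [← ofReal_norm, ← ofReal_norm, ← ofReal_norm, ← ofReal_norm,
    ← ENNReal.ofReal_add (norm_nonneg _) (norm_nonneg _),
    ← ENNReal.ofReal_add (by positivity) (norm_nonneg _)]
  exact ENNReal.ofReal_le_ofReal h

theorem main : S_bs := by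
  refine ⟨9 * ‖(∫ z, Ker z)⁻¹‖₊, fun φ hφ hc hd a => ?_⟩
  obtain ⟨J, hJ⟩ : ∃ J : ℝ≥0∞, J = ∫⁻ y, ‖rot (jac φ y)‖ₑ * (‖a - y‖ₑ ^ 2)⁻¹ := ⟨_, rfl⟩
  rw [← hJ]
  have hb : ∀ (i : Fin 3) (ε : ℝ), 0 < ε → ‖∫ z, φ (a + ε • z) i * Ker z‖ₑ ≤ 3 * J := by
    intro i ε hε
    rw [← scaling a hε i, core hφ hc hd a hε i, enorm_neg, Fin.sum_univ_three]
    have h1 : ∀ j : Fin 3, ‖∫ y, (jac φ y (i, j) - jac φ y (j, i)) * V ε a j y‖ₑ ≤ J := by
      intro j
      refine (enorm_integral_le_lintegral_enorm _).trans ?_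
      rw [hJ]
      refine lintegral_mono fun y => ?_
      rw [enorm_mul]
      exact mul_le_mul' (rot_bound _ _ _) (V_bound hε a j y)
    refine (enorm_add_le _ _).trans ((add_le_add (enorm_add_le _ _) le_rfl).trans ?_)
    refine (add_le_add (add_le_add (h1 0) (h1 1)) (h1 2)).trans (le_of_eq ?_)
    ring
  have hlim : ∀ i : Fin 3, ‖φ a i * ∫ z, Ker z‖ₑ ≤ 3 * J := by
    intro i
    have h1 := (continuous_enorm.tendsto _).comp (limit hφ hc a i)
    refine le_of_tendsto' h1 fun n => ?_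
    exact hb i (1 / ((n : ℝ) + 1)) (by positivity)
  have hi : ∀ i : Fin 3, ‖φ a i‖ₑ ≤ ‖(∫ z, Ker z)⁻¹‖ₑ * (3 * J) := by
    intro i
    have h1 : φ a i = (∫ z, Ker z)⁻¹ * (φ a i * ∫ z, Ker z) := by
      field_simp [integral_Ker_pos.ne']
    rw [h1, enorm_mul]
    exact mul_le_mul_right (hlim i) _
  refine (norm_le_sum (φ a)).trans ((add_le_add (add_le_add (hi 0) (hi 1)) (hi 2)).trans
    (le_of_eq ?_))
  rw [ENNReal.coe_mul, ← enorm_eq_nnnorm]
  push_cast
  ring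

end Pool.Agent.U504.EV
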